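import Pool.Agent.H336.Gumm.Unif

/-!
# Linear triple systems closed under a weak near-unanimity operation
-/

set_option autoImplicit false
set_option linter.unusedSectionVars false

namespace Pool.Agent.H336.Tay

open Finset Classical
open Pool.Agent.H336.Gumm

/-- `w` is a weak near-unanimity operation: `w(x,...,x) = x`, and the value
`w(x,...,x,y,x,...,x)` does not depend on the place of `y`. -/
structure IsWnu {X : Type} {m : ℕ} (w : (Fin m → X) → X) : Prop where
  idem : ∀ x, w (fun _ => x) = x
  wnu : ∀ i j x y, w (Function.update (fun _ => x) i y) = w (Function.update (fun _ => x) j y)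

theorem sup_pres {A A' ι : Type} {θ : ι → Setoid A} {θ' : ι → Setoid A'} {f : A → A'}
    {T : Finset ι} (hf : ∀ s ∈ T, ∀ a b, θ s a b → θ' s (f a) (f b)) {a b : A}
    (h : (T.sup θ) a b) : (T.sup θ') (f a) (f b) := by
  have h1 : T.sup θ ≤ Setoid.comap f (T.sup θ') := Finset.sup_le fun s hs a b hab =>
    (Finset.le_sup (f := θ') hs) (hf s hs a b hab)
  exact h1 h

/-- The term condition. -/
theorem tc {A ι : Type} {θ : ι → Setoid A} {T : Finset ι} {δ : Setoid A}
    (hδ : ∀ s ∈ T, ∀ a b, δ a b → θ s a b → a = b) {f g : A → A}
    (hf : ∀ s a b, θ s a b → θ s (f a) (f b)) (hg : ∀ s a b, θ s a b → θ s (g a) (g b))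
    (hfg : ∀ z, δ (f z) (g z)) {z z' : A} (hz : (T.sup θ) z z') (h : f z = g z) : f z' = g z' := by
  have h1 : T.sup θ ≤ Setoid.ker fun z => f z = g z := by
    refine Finset.sup_le fun s hs => ?_
    have key : ∀ a b, θ s a b → f a = g a → f b = g b := by
      intro a b hab h
      refine hδ s hs _ _ (hfg b) ((θ s).trans (hf s _ _ ((θ s).symm hab)) ?_)
      rw [h]
      exact hg s _ _ hab
    intro a b hab
    exact propext ⟨key a b hab, key b a ((θ s).symm hab)⟩
  have h2 : (f z = g z) = (f z' = g z') := h1 hz
  rwa [← h2]

theorem exists_idem {A : Type} [Finite A] (f : A → A → A) :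
    ∃ k, ∀ c z, (f c)^[k + 1] ((f c)^[k + 1] z) = (f c)^[k + 1] z := by
  obtain ⟨a, b, hab, h⟩ := Finite.exists_ne_map_eq_of_infinite
    fun j : ℕ => fun c z => (f c)^[j] z
  wlog hlt : a < b generalizing a b
  · exact this b a hab.symm h.symm (by omega)
  obtain ⟨d, rfl⟩ : ∃ d, b = a + (d + 1) := ⟨b - a - 1, by omega⟩
  have h1 : ∀ t, a ≤ t → ∀ c z, (f c)^[t + (d + 1)] z = (f c)^[t] z := by
    intro t ht c z
    obtain ⟨r, rfl⟩ : ∃ r, t = r + a := ⟨t - a, by omega⟩
    have h2 : (f c)^[a + (d + 1)] z = (f c)^[a] z := (congrFun (congrFun h c) z).symm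
    rw [add_assoc, Function.iterate_add_apply, h2, ← Function.iterate_add_apply]
  have h3 : ∀ q t, a ≤ t → ∀ c z, (f c)^[t + q * (d + 1)] z = (f c)^[t] z := by
    intro q
    induction q with
    | zero => intro t _ c z; simp
    | succ q ih =>
      intro t ht c z
      have : t + (q + 1) * (d + 1) = (t + q * (d + 1)) + (d + 1) := by ring
      rw [this, h1 _ (by omega), ih t ht]
  refine ⟨(a + 1) * (d + 1) - 1, fun c z => ?_⟩
  have h4 : (a + 1) * (d + 1) - 1 + 1 = (a + 1) * (d + 1) := by
    have : 0 < (a + 1) * (d + 1) := by positivity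
    omega
  rw [h4, ← Function.iterate_add_apply]
  refine h3 (a + 1) _ ?_ c z
  nlinarith

/-- A weak near-unanimity operation compatible with some equivalence relations. -/
structure SysG {A ι : Type} {m : ℕ} (θ : ι → Setoid A) (w : (Fin m → A) → A) : Prop where
  wnu : IsWnu w
  comp : ∀ s a b, (∀ i, θ s (a i) (b i)) → θ s (w a) (w b)

/-- The join of all the relations but one. -/
noncomputable def psi' {A ι : Type} [Fintype ι] [DecidableEq ι] (θ : ι → Setoid A) (i : ι) : Setoid A :=
  (univ.erase i).sup θ

/-- The intersection of a relation with the join of the others. -/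
noncomputable def kap' {A ι : Type} [Fintype ι] [DecidableEq ι] (θ : ι → Setoid A) (i : ι) : Setoid A :=
  θ i ⊓ psi' θ i

section

variable {ι : Type} [Fintype ι] {m : ℕ} {A : Type} {θ : ι → Setoid A} {w : (Fin m → A) → A}

/-- `c ∘ z = w(z, c, ..., c)` -/
def circ (hm : 2 ≤ m) (w : (Fin m → A) → A) (c z : A) : A :=
  w (Function.update (fun _ => c) ⟨0, by omega⟩ z)

theorem circ_pres (hm : 2 ≤ m) (S : SysG θ w) (s : ι) (c c' z z' : A) (hc : θ s c c')
    (hz : θ s z z') : θ s (circ hm w c z) (circ hm w c' z') := by
  refine S.comp s _ _ fun i => ?_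
  by_cases h : i = ⟨0, by omega⟩
  · rw [h, Function.update_self, Function.update_self]; exact hz
  · rw [Function.update_of_ne h, Function.update_of_ne h]; exact hc

theorem it_pres (hm : 2 ≤ m) (S : SysG θ w) (s : ι) (k : ℕ) : ∀ c c' z z' : A,
    θ s c c' → θ s z z' →
      θ s ((circ hm w c)^[k] z) ((circ hm w c')^[k] z') := by
  induction k with
  | zero => intro c c' z z' _ hz; exact hz
  | succ k ih =>
    intro c c' z z' hc hz
    rw [Function.iterate_succ_apply', Function.iterate_succ_apply']
    exact circ_pres hm S s _ _ _ _ hc (ih _ _ _ _ hc hz)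

theorem circ_self (hm : 2 ≤ m) (S : SysG θ w) (c : A) : circ hm w c c = c := by
  rw [circ, Function.update_eq_self_iff.2 rfl]
  exact S.wnu.idem c

theorem it_self (hm : 2 ≤ m) (S : SysG θ w) (k : ℕ) (c : A) : (circ hm w c)^[k] c = c := by
  induction k with
  | zero => rfl
  | succ k ih => rw [Function.iterate_succ_apply', ih, circ_self hm S]

theorem circ_inj (hm : 2 ≤ m) (S : SysG θ w) {T : Finset ι} {δ : Setoid A}
    (hδ : ∀ s ∈ T, ∀ a b, δ a b → θ s a b → a = b)
    (hpres : ∀ f : A → A, (∀ s a b, θ s a b → θ s (f a) (f b)) →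
      ∀ a b, δ a b → δ (f a) (f b))
    {x y : A} (hxy : δ x y) (hl : (T.sup θ) x y) (h : circ hm w x y = x) : x = y := by
  have key : ∀ k ≤ m, w (fun j => if j.1 < k then y else x) = x := by
    intro k
    induction k with
    | zero =>
      intro _
      simp only [Nat.not_lt_zero, if_false]
      exact S.wnu.idem x
    | succ k ih =>
      intro hk
      have h1 := ih (by omega)
      let f : A → A := fun z => w fun j => if j.1 < k then z else if j.1 = k then y else x
      let g : A → A := fun z => w fun j => if j.1 < k then z else x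
      have hf : ∀ s a b, θ s a b → θ s (f a) (f b) := by
        intro s a b hab
        refine S.comp s _ _ fun i => ?_
        by_cases h1 : i.1 < k
        · simp only [if_pos h1]; exact hab
        · simp only [if_neg h1]; exact (θ s).refl _
      have hg : ∀ s a b, θ s a b → θ s (g a) (g b) := by
        intro s a b hab
        refine S.comp s _ _ fun i => ?_
        by_cases h1 : i.1 < k
        · simp only [if_pos h1]; exact hab
        · simp only [if_neg h1]; exact (θ s).refl _
      have hfg : ∀ z, δ (f z) (g z) := by
        intro z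
        let t : A → A := fun b => w fun j => if j.1 < k then z else if j.1 = k then b else x
        have e1 : g z = t x := by
          show (w fun j => if j.1 < k then z else x) =
            w fun j => if j.1 < k then z else if j.1 = k then x else x
          congr 1
          funext j
          split_ifs <;> rfl
        rw [e1]
        refine δ.symm (hpres t ?_ x y hxy)
        intro s a b hab
        refine S.comp s _ _ fun i => ?_
        by_cases h1 : i.1 < k
        · simp only [if_pos h1]; exact (θ s).refl _
        · simp only [if_neg h1]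
          by_cases h2 : i.1 = k
          · simp only [if_pos h2]; exact hab
          · simp only [if_neg h2]; exact (θ s).refl _
      have h0 : f x = g x := by
        have e1 : f x = w (Function.update (fun _ => x) ⟨k, by omega⟩ y) := by
          show (w fun j => if j.1 < k then x else if j.1 = k then y else x) = _
          congr 1
          funext j
          by_cases hj : j = ⟨k, by omega⟩
          · rw [hj, Function.update_self]
            simp
          · rw [Function.update_of_ne hj]
            have : j.1 ≠ k := fun h => hj (Fin.ext h)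
            simp [this]
        have e2 : g x = x := by
          show (w fun j => if j.1 < k then x else x) = x
          simp only [ite_self]
          exact S.wnu.idem x
        rw [e1, e2, S.wnu.wnu _ ⟨0, by omega⟩]
        exact h
      have h2 := tc hδ hf hg hfg hl h0
      have e3 : f y = w fun j => if j.1 < k + 1 then y else x := by
        show (w fun j => if j.1 < k then y else if j.1 = k then y else x) = _
        congr 1
        funext j
        by_cases h1 : j.1 < k
        · rw [if_pos h1, if_pos (by omega)]
        · rw [if_neg h1]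
          by_cases h2 : j.1 = k
          · rw [if_pos h2, if_pos (by omega)]
          · rw [if_neg h2, if_neg (by omega)]
      rw [← e3, h2]
      exact h1
  have h1 := key m le_rfl
  have h2 : (fun j : Fin m => if j.1 < m then y else x) = fun _ => y := by
    funext j
    rw [if_pos j.2]
  rw [h2, S.wnu.idem] at h1
  exact h1.symm

theorem it_inj (hm : 2 ≤ m) (S : SysG θ w) {T : Finset ι} {δ : Setoid A}
    (hδ : ∀ s ∈ T, ∀ a b, δ a b → θ s a b → a = b)
    (hpres : ∀ f : A → A, (∀ s a b, θ s a b → θ s (f a) (f b)) →
      ∀ a b, δ a b → δ (f a) (f b))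
    {x y : A} (hxy : δ x y) (hl : (T.sup θ) x y) (k : ℕ)
    (h : (circ hm w x)^[k] y = x) : x = y := by
  induction k with
  | zero => exact h.symm
  | succ k ih =>
    rw [Function.iterate_succ_apply'] at h
    have hp : ∀ s a b, θ s a b →
        θ s ((circ hm w x)^[k] a) ((circ hm w x)^[k] b) := fun s a b hab =>
      it_pres hm S s k _ _ _ _ ((θ s).refl x) hab
    have h1 := hpres _ hp x y hxy
    have h2 := sup_pres (T := T) (θ := θ) (θ' := θ) (f := (circ hm w x)^[k])
      (fun s _ => hp s) hl
    rw [it_self hm S] at h1 h2
    exact ih (circ_inj hm S hδ hpres h1 h2 h).symm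

/-- If all of the maps `c ∘ ·` are permutations, there is a Mal'tsev operation. -/
theorem malcev (hm : 2 ≤ m) (S : SysG θ w) (k : ℕ)
    (hid : ∀ c z, (circ hm w c)^[k + 1] z = z) :
    ∃ p : A → A → A → A, IsGumm 0 (fun _ x _ _ => x) p ∧
      ∀ s, Cg 0 (fun _ x _ _ => x) p (θ s) := by
  let p : A → A → A → A := fun x y z =>
    (circ hm w y)^[k] (w fun j => if j.1 = 0 then x else if j.1 = 1 then z else y)
  have e1 : ∀ c z, p c c z = z := by
    intro c z
    have h1 : (w fun j => if j.1 = 0 then c else if j.1 = 1 then z else c) = circ hm w c z := by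
      rw [circ, S.wnu.wnu _ ⟨1, by omega⟩]
      congr 1
      funext j
      by_cases hj : j = ⟨1, by omega⟩
      · rw [hj, Function.update_self]; simp
      · rw [Function.update_of_ne hj]
        have : j.1 ≠ 1 := fun h => hj (Fin.ext h)
        simp [this]
    show (circ hm w c)^[k] _ = z
    rw [h1, ← Function.iterate_succ_apply]
    exact hid c z
  have e2 : ∀ x y, p x y y = x := by
    intro x y
    have h1 : (w fun j => if j.1 = 0 then x else if j.1 = 1 then y else y) = circ hm w y x := by
      rw [circ]
      congr 1
      funext j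
      by_cases hj : j = ⟨0, by omega⟩
      · rw [hj, Function.update_self]; simp
      · rw [Function.update_of_ne hj]
        have : j.1 ≠ 0 := fun h => hj (Fin.ext h)
        simp [this]
    show (circ hm w y)^[k] _ = x
    rw [h1, ← Function.iterate_succ_apply]
    exact hid y x
  refine ⟨p, ⟨fun _ _ _ => rfl, fun _ _ _ _ => rfl, fun i hi => by omega, fun i hi => by omega,
    fun x y => (e2 x y).symm, e1⟩, fun s => ⟨fun _ _ a a' b b' c c' h1 _ _ => h1, ?_⟩⟩
  intro a a' b b' c c' h1 h2 h3
  refine it_pres hm S s k _ _ _ _ h2 (S.comp s _ _ fun j => ?_)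
  by_cases hj : j.1 = 0
  · simp only [if_pos hj]; exact h1
  · simp only [if_neg hj]
    by_cases hj' : j.1 = 1
    · simp only [if_pos hj']; exact h3
    · simp only [if_neg hj']; exact h2

theorem pres_kap [DecidableEq ι] {f : A → A} (hf : ∀ s a b, θ s a b → θ s (f a) (f b)) {i : ι}
    {x y : A} (h : kap' θ i x y) : kap' θ i (f x) (f y) :=
  ⟨hf i _ _ h.1, sup_pres (θ' := θ) (fun s _ => hf s) h.2⟩

end

end Pool.Agent.H336.Tay
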