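import Pool.Agent.H336.Tay.Tri

/-!
# Triple systems which are unions of linear relations closed under weak near-unanimity operations
-/

set_option autoImplicit false
set_option linter.unusedSectionVars false

namespace Pool.Agent.H336.Tay

open Finset Classical
open Pool.Agent.H336.Gumm
open Pool.Agent.R181.Maj (edge edge_injective amgm)

/-- `F` is a relation between three pairwise disjoint sets of vertices, closed under the
componentwise application of some weak near-unanimity operations on these sets, of the same arity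
`m ≥ 2`. -/
def WnuPiece {V : Type} (F : Set (Finset V)) : Prop :=
  ∃ (X : Fin 3 → Type) (m : ℕ) (w : ∀ i, (Fin m → X i) → X i) (f : (Σ i, X i) → V)
    (E : Set (∀ i, X i)), 2 ≤ m ∧ (∀ i, IsWnu (w i)) ∧ Function.Injective f ∧
    (∀ a : Fin m → ∀ i, X i, (∀ l, a l ∈ E) → (fun i => w i fun l => a l i) ∈ E) ∧
    F = edge f '' E

/-- Two different elements have at most one vertex in common. -/
def Linear {V : Type} (F : Set (Finset V)) : Prop :=
  ∀ a ∈ F, ∀ b ∈ F, a ≠ b → #(a ∩ b) ≤ 1

theorem wpiece_bound {V : Type} [Fintype V] {k : ℕ} (hk : k ≤ Fintype.card V)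
    {H : Set (Finset V)} (hH : Free k H) {F : Set (Finset V)} (hF : WnuPiece F)
    (hl : Linear F) (hFH : F ⊆ H) :
    27 * F.ncard ^ 2 ≤ (k - 4) * Fintype.card V ^ 3 := by
  have hk4 : 4 ≤ k := by
    obtain ⟨S, -, hS⟩ := exists_superset_card_eq (s := (∅ : Finset V)) (by simp) hk
    have := hH S hS
    omega
  obtain ⟨X, m, w, f, E, hm, hW, hf, hcl, rfl⟩ := hF
  have hfi : ∀ i, Function.Injective fun a : X i => f ⟨i, a⟩ := fun i a b hab =>
    eq_of_heq (Sigma.mk.inj (hf hab)).2
  have : ∀ i, Finite (X i) := fun i => Finite.of_injective _ (hfi i)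
  let _ : ∀ i, Fintype (X i) := fun i => Fintype.ofFinite (X i)
  let A : Type := {x // x ∈ E}
  let _ : Fintype A := Fintype.ofFinite A
  let g : ∀ i, A → X i := fun i x => x.1 i
  let w' : (Fin m → A) → A := fun a =>
    ⟨fun i => w i fun l => (a l).1 i, hcl (fun l => (a l).1) fun l => (a l).2⟩
  have hS : SysG (ker g) w' := by
    refine ⟨⟨fun x => ?_, fun i j x y => ?_⟩, ?_⟩
    · exact Subtype.ext (funext fun s => (hW s).idem _)
    · refine Subtype.ext (funext fun s => ?_)
      have h2 : ∀ i : Fin m, (fun l => (Function.update (fun _ => x) i y l).1 s) =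
          Function.update (fun _ => x.1 s) i (y.1 s) := by
        intro i
        funext l
        by_cases hl : l = i
        · rw [hl, Function.update_self, Function.update_self]
        · rw [Function.update_of_ne hl, Function.update_of_ne hl]
      show (w s fun l => (Function.update (fun _ => x) i y l).1 s) =
        w s fun l => (Function.update (fun _ => x) j y l).1 s
      rw [h2, h2, (hW s).wnu i j]
    · intro s a b hab
      show (w s fun l => (a l).1 s) = w s fun l => (b l).1 s
      congr 1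
      funext l
      exact hab l
  have hlin : Lin g := by
    intro i j hij x y h1 h2
    by_contra hne
    have h3 : edge f x.1 ≠ edge f y.1 := fun h => hne (Subtype.ext (edge_injective hf h))
    have h4 := hl _ ⟨x.1, x.2, rfl⟩ _ ⟨y.1, y.2, rfl⟩ h3
    have h5 : ∀ s, x.1 s = y.1 s → f ⟨s, x.1 s⟩ ∈ edge f x.1 ∩ edge f y.1 := by
      intro s hs
      refine mem_inter.2 ⟨mem_image_of_mem (fun i => f ⟨i, x.1 i⟩) (mem_univ s), ?_⟩
      rw [hs]
      exact mem_image_of_mem (fun i => f ⟨i, y.1 i⟩) (mem_univ s)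
    have h6 := card_le_one.1 h4 _ (h5 i h1) _ (h5 j h2)
    exact hij (Sigma.mk.inj (hf h6)).1
  have hsp : Sp g (k - 3) := by
    intro T hT
    by_contra hcon
    push Not at hcon
    obtain ⟨S, hS1, hS2⟩ := exists_superset_card_eq
      (s := vs f fun i => T.image (g i)) (n := k) (by rw [card_vs hf, vn]; omega) hk
    have h1 : Function.Injective fun x : A => edge f x.1 := fun x y h =>
      Subtype.ext (edge_injective hf h)
    have h2 : #T ≤ {e ∈ H | e ⊆ S}.ncard := by
      rw [← card_image_of_injective T h1, ← Set.ncard_coe_finset]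
      refine Set.ncard_le_ncard ?_ (Set.toFinite _)
      intro e he
      rw [coe_image] at he
      obtain ⟨x, hx, rfl⟩ := he
      exact ⟨hFH ⟨x.1, x.2, rfl⟩, (edge_sub f x.1 S).2 fun i =>
        hS1 (mem_vs (mem_image_of_mem _ hx))⟩
    have h3 := hH S hS2
    omega
  have h1 := tri_bound hm (e := k - 3) (by omega) hS hlin hsp
  have h2 : (edge f '' E).ncard = Fintype.card A := by
    rw [Set.ncard_image_of_injective _ (edge_injective hf), ← Nat.card_coe_set_eq,
      Nat.card_eq_fintype_card]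
  have h3 : ∏ i, #((univ : Finset A).image (g i)) ≤ ∏ i, Fintype.card (X i) :=
    prod_le_prod' fun i _ => card_le_univ _
  have h4 := amgm (univ : Finset (Fin 3)) univ_nonempty fun i => Fintype.card (X i)
  rw [card_univ, Fintype.card_fin] at h4
  have h5 : ∑ i, Fintype.card (X i) ≤ Fintype.card V := by
    rw [← Fintype.card_sigma]
    exact Fintype.card_le_of_injective f hf
  have h6 : k - 3 - 1 = k - 4 := by omega
  rw [h6] at h1
  rw [h2]
  calc 27 * Fintype.card A ^ 2
      ≤ 27 * ((k - 4) * ∏ i, Fintype.card (X i)) :=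
        Nat.mul_le_mul_left _ (h1.trans (Nat.mul_le_mul_left _ h3))
    _ = (k - 4) * (3 ^ 3 * ∏ i, Fintype.card (X i)) := by ring
    _ ≤ (k - 4) * (∑ i, Fintype.card (X i)) ^ 3 := Nat.mul_le_mul_left _ h4
    _ ≤ _ := Nat.mul_le_mul_left _ (Nat.pow_le_pow_left h5 _)

theorem wupper (k L : ℕ) (V : Type) [Fintype V] (hk : k ≤ Fintype.card V) (H : Set (Finset V))
    (hfree : Free k H) (F : Fin L → Set (Finset V)) (hF : ∀ i, WnuPiece (F i))
    (hl : ∀ i, Linear (F i)) (hFH : ∀ i, F i ⊆ H) :
    ((⋃ i, F i).ncard : ℝ) ≤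
      Real.sqrt (k - 4) * L * ((Fintype.card V : ℝ) / 3) ^ (3 / 2 : ℝ) := by
  have hk4 : 4 ≤ k := by
    obtain ⟨S, -, hS⟩ := exists_superset_card_eq (s := (∅ : Finset V)) (by simp) hk
    have := hfree S hS
    omega
  have hs1 : (0 : ℝ) ≤ (k : ℝ) - 4 := by
    have : (4 : ℝ) ≤ k := by exact_mod_cast hk4
    linarith
  have h1 : ∀ i, ((F i).ncard : ℝ) ≤
      Real.sqrt (k - 4) * ((Fintype.card V : ℝ) / 3) ^ (3 / 2 : ℝ) := by
    intro i
    have h2 := wpiece_bound hk hfree (hF i) (hl i) (hFH i)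
    refine le_of_pow_le_pow_left₀ (n := 2) (by norm_num) (by positivity) ?_
    have h3 : (((Fintype.card V : ℝ) / 3) ^ (3 / 2 : ℝ)) ^ 2 = ((Fintype.card V : ℝ) / 3) ^ 3 := by
      rw [← Real.rpow_natCast, ← Real.rpow_mul (by positivity)]
      norm_num
    rw [mul_pow, h3, Real.sq_sqrt hs1]
    have h4 : ((27 * (F i).ncard ^ 2 : ℕ) : ℝ) ≤
        (((k - 4) * Fintype.card V ^ 3 : ℕ) : ℝ) := by exact_mod_cast h2
    rw [Nat.cast_mul, Nat.cast_mul, Nat.cast_pow, Nat.cast_pow,
      Nat.cast_sub hk4] at h4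
    norm_num at h4
    rw [div_pow]
    linarith
  have h6 : (⋃ i, F i).ncard ≤ ∑ i : Fin L, (F i).ncard := Set.ncard_iUnion_le_of_fintype F
  calc ((⋃ i, F i).ncard : ℝ) ≤ ((∑ i : Fin L, (F i).ncard : ℕ) : ℝ) := by exact_mod_cast h6
    _ = ∑ i : Fin L, ((F i).ncard : ℝ) := by push_cast; rfl
    _ ≤ ∑ _i : Fin L, Real.sqrt (k - 4) * ((Fintype.card V : ℝ) / 3) ^ (3 / 2 : ℝ) :=
        sum_le_sum fun i _ => h1 i
    _ = Real.sqrt (k - 4) * L * ((Fintype.card V : ℝ) / 3) ^ (3 / 2 : ℝ) := by
        rw [sum_const, card_univ, Fintype.card_fin, nsmul_eq_mul]; ring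

end Pool.Agent.H336.Tay
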