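import Pool.Agent.H336.Tay.Core
import Pool.Agent.R181.LW

/-!
# Linear triple systems closed under a weak near-unanimity operation: the classes are small
-/

set_option autoImplicit false
set_option linter.unusedSectionVars false

namespace Pool.Agent.H336.Tay

open Finset Classical
open Pool.Agent.H336.Gumm

/-- Two different coordinates determine the element. -/
def Lin {A : Type} {X : Fin 3 → Type} (f : ∀ i, A → X i) : Prop :=
  ∀ i j, i ≠ j → ∀ x y, f i x = f i y → f j x = f j y → x = y

/-- Any `e` elements have more than `e + 3` vertices. -/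
def Sp {A : Type} {X : Fin 3 → Type} (f : ∀ i, A → X i) (e : ℕ) : Prop :=
  ∀ T : Finset A, #T = e → e + 3 < ∑ i, #(T.image (f i))

/-- the restriction to a subset -/
def rs {A : Type} {X : Fin 3 → Type} (f : ∀ i, A → X i) (P : A → Prop) :
    ∀ i, {a // P a} → X i := fun i a => f i a.1

theorem lin_rs {A : Type} {X : Fin 3 → Type} {f : ∀ i, A → X i} (h : Lin f) (P : A → Prop) :
    Lin (rs f P) := fun i j hij x y h1 h2 => Subtype.ext (h i j hij x.1 y.1 h1 h2)

theorem sp_rs {A : Type} {X : Fin 3 → Type} {f : ∀ i, A → X i} {e : ℕ} (h : Sp f e)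
    (P : A → Prop) : Sp (rs f P) e := by
  intro T hT
  have h1 := h (T.image Subtype.val) (by
    rw [card_image_of_injective _ Subtype.val_injective, hT])
  refine h1.trans_le (sum_le_sum fun i _ => ?_)
  rw [image_image]
  exact le_rfl

section

variable {m : ℕ} {A : Type} {X : Fin 3 → Type} {f : ∀ i, A → X i} {w : (Fin m → A) → A}

theorem sys_retract (S : SysG (ker f) w) (E : A → A) (hE : ∀ a, E (E a) = E a)
    (hp : ∀ s a b, ker f s a b → ker f s (E a) (E b)) :
    SysG (ker (rs f fun a => E a = a)) fun a => ⟨E (w fun i => (a i).1), hE _⟩ := by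
  refine ⟨⟨fun x => ?_, fun i j x y => ?_⟩, ?_⟩
  · refine Subtype.ext ?_
    show E (w fun _ => x.1) = x.1
    rw [S.wnu.idem, x.2]
  · refine Subtype.ext ?_
    have h1 : ∀ i : Fin m, (fun l => (Function.update (fun _ => x) i y l).1) =
        Function.update (fun _ => x.1) i y.1 := by
      intro i
      funext l
      by_cases hl : l = i
      · rw [hl, Function.update_self, Function.update_self]
      · rw [Function.update_of_ne hl, Function.update_of_ne hl]
    show E (w fun l => (Function.update (fun _ => x) i y l).1) =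
      E (w fun l => (Function.update (fun _ => x) j y l).1)
    rw [h1, h1, S.wnu.wnu i j]
  · intro s a b hab
    exact hp s _ _ (S.comp s _ _ hab)

theorem compat_sup_n (S : SysG (ker f) w) (T : Finset (Fin 3)) (a b : Fin m → A)
    (h : ∀ i, (T.sup (ker f)) (a i) (b i)) : (T.sup (ker f)) (w a) (w b) := by
  have key : ∀ K : Finset (Fin m),
      (T.sup (ker f)) (w a) (w fun i => if i ∈ K then b i else a i) := by
    intro K
    induction K using Finset.induction_on with
    | empty =>
      simp only [notMem_empty, if_false]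
      exact Setoid.refl' _ _
    | insert i K hi ih =>
      refine Setoid.trans' _ ih ?_
      let g : A → A := fun z => w fun j => if j = i then z else if j ∈ K then b j else a j
      have hf : ∀ s ∈ T, ∀ c d, ker f s c d → ker f s (g c) (g d) := by
        intro s _ c d hcd
        refine S.comp s _ _ fun j => ?_
        by_cases hj : j = i
        · simp only [if_pos hj]; exact hcd
        · simp only [if_neg hj]; exact (ker f s).refl _
      have h1 := sup_pres (θ' := ker f) (f := g) hf (h i)
      have e1 : g (a i) = w fun j => if j ∈ K then b j else a j := by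
        show (w fun j => if j = i then a i else if j ∈ K then b j else a j) = _
        congr 1
        funext j
        by_cases hj : j = i
        · rw [if_pos hj, hj, if_neg hi]
        · rw [if_neg hj]
      have e2 : g (b i) = w fun j => if j ∈ insert i K then b j else a j := by
        show (w fun j => if j = i then b i else if j ∈ K then b j else a j) = _
        congr 1
        funext j
        by_cases hj : j = i
        · rw [if_pos hj, hj, if_pos (mem_insert_self _ _)]
        · rw [if_neg hj]
          by_cases hK : j ∈ K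
          · rw [if_pos hK, if_pos (mem_insert_of_mem hK)]
          · rw [if_neg hK, if_neg]
            intro h0
            rcases mem_insert.1 h0 with h0 | h0
            · exact hj h0
            · exact hK h0
      rwa [e1, e2] at h1
  have h1 := key univ
  simpa using h1

theorem sys_class (S : SysG (ker f) w) (T : Finset (Fin 3)) (x : A) :
    ∃ w' : (Fin m → {a : A // (T.sup (ker f)) x a}) → {a : A // (T.sup (ker f)) x a},
      SysG (ker (rs f fun a => (T.sup (ker f)) x a)) w' := by
  have hcl : ∀ a : Fin m → {a : A // (T.sup (ker f)) x a},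
      (T.sup (ker f)) x (w fun i => (a i).1) := by
    intro a
    have h1 := compat_sup_n S T (fun _ => x) (fun i => (a i).1) fun i => (a i).2
    rwa [S.wnu.idem] at h1
  refine ⟨fun a => ⟨w fun i => (a i).1, hcl a⟩,
    ⟨⟨fun y => ?_, fun i j y z => ?_⟩, ?_⟩⟩
  · refine Subtype.ext ?_
    show (w fun _ => y.1) = y.1
    rw [S.wnu.idem]
  · refine Subtype.ext ?_
    have h1 : ∀ i : Fin m, (fun l => (Function.update (fun _ => y) i z l).1) =
        Function.update (fun _ => y.1) i z.1 := by
      intro i
      funext l
      by_cases hl : l = i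
      · rw [hl, Function.update_self, Function.update_self]
      · rw [Function.update_of_ne hl, Function.update_of_ne hl]
    show (w fun l => (Function.update (fun _ => y) i z l).1) =
      w fun l => (Function.update (fun _ => y) j z l).1
    rw [h1, h1, S.wnu.wnu i j]
  · intro s a b hab
    exact S.comp s _ _ hab

theorem lift_class (T K : Finset (Fin 3)) (hK : K ⊆ T) (x : A)
    {a b : {a : A // (T.sup (ker f)) x a}} (h : (K.sup (ker f)) a.1 b.1) :
    (K.sup (ker (rs f fun a => (T.sup (ker f)) x a))) a b := by
  set f' := rs f fun a => (T.sup (ker f)) x a with hf'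
  have h1 : K.sup (ker f) ≤ Setoid.ker fun z =>
      ∃ hz : (T.sup (ker f)) x z, (K.sup (ker f')) a ⟨z, hz⟩ := by
    refine Finset.sup_le fun s hs => ?_
    have key : ∀ c d, ker f s c d →
        (∃ hz : (T.sup (ker f)) x c, (K.sup (ker f')) a ⟨c, hz⟩) →
        ∃ hz : (T.sup (ker f)) x d, (K.sup (ker f')) a ⟨d, hz⟩ := by
      rintro c d hcd ⟨hc, hac⟩
      have hd : (T.sup (ker f)) x d :=
        Setoid.trans' _ hc ((Finset.le_sup (f := ker f) (hK hs)) hcd)
      refine ⟨hd, Setoid.trans' _ hac ?_⟩
      have h2 : ker f' s ⟨c, hc⟩ ⟨d, hd⟩ := hcd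
      exact (Finset.le_sup (f := ker f') hs) h2
    intro c d hcd
    exact propext ⟨key c d hcd, key d c ((ker f s).symm hcd)⟩
  have h2 : (∃ hz : (T.sup (ker f)) x a.1, (K.sup (ker f')) a ⟨a.1, hz⟩) =
      ∃ hz : (T.sup (ker f)) x b.1, (K.sup (ker f')) a ⟨b.1, hz⟩ := h1 h
  have h3 : ∃ hz : (T.sup (ker f)) x b.1, (K.sup (ker f')) a ⟨b.1, hz⟩ := by
    rw [← h2]
    exact ⟨a.2, Setoid.refl' _ _⟩
  exact h3.2

theorem uc_small [Fintype A] (hN : Nice f) {e : ℕ} (he : 1 ≤ e) (hs : Sp f e) (z : A) :
    #(uc f z) < e := by
  by_contra hcon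
  push Not at hcon
  by_cases hv : e + 3 ≤ vn fun i => (uc f z).image (f i)
  · obtain ⟨B, -, hBk, hBe⟩ := greedy hN z (e + 3) (by omega) hv
    have h1 : e ≤ #{x ∈ uc f z | Ins f B x} := by
      have h3 : en f (uc f z) B = #{x ∈ uc f z | Ins f B x} := rfl
      omega
    obtain ⟨T, hT, hTe⟩ := exists_subset_card_eq h1
    have h2 := hs T hTe
    have h3 : ∑ i, #(T.image (f i)) ≤ vn B := sum_le_sum fun i _ => card_le_card fun a ha => by
      obtain ⟨x, hx, rfl⟩ := mem_image.1 ha
      exact (mem_filter.1 (hT hx)).2 i
    omega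
  · obtain ⟨T, hT, hTe⟩ := exists_subset_card_eq hcon
    have h2 := hs T hTe
    have h3 : ∑ i, #(T.image (f i)) ≤ vn fun i => (uc f z).image (f i) :=
      sum_le_sum fun i _ => card_le_card (image_subset_image hT)
    omega

theorem kap_up {i : Fin 3} {x y : A} (h : kap' (ker f) i x y) : up (ker f) x y := by
  intro a b hab
  by_cases ha : a = i
  · rw [ha]; exact (le_sup_left : ker f i ≤ _) h.1
  by_cases hb : b = i
  · rw [hb]; exact (le_sup_right : ker f i ≤ _) h.1
  have h1 : psi' (ker f) i ≤ ker f a ⊔ ker f b := by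
    refine Finset.sup_le fun s hs => ?_
    have hs' := (mem_erase.1 hs).1
    have : s = a ∨ s = b := by omega
    rcases this with rfl | rfl
    · exact le_sup_left
    · exact le_sup_right
  exact h1 h.2

end

theorem kap_small {m : ℕ} (hm : 2 ≤ m) (e : ℕ) (he : 1 ≤ e) : ∀ (N : ℕ) (A : Type) [Fintype A]
    (X : Fin 3 → Type) (f : ∀ i, A → X i) (w : (Fin m → A) → A), SysG (ker f) w → Lin f →
      Sp f e → Fintype.card A = N → ∀ (i : Fin 3) (D : Finset A),
        (∀ x ∈ D, ∀ y ∈ D, kap' (ker f) i x y) → #D < e := by
  intro N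
  induction N using Nat.strong_induction_on with
  | _ N ih =>
    intro A _ X f w S hlin hsp hN i D hD
    by_contra hcon
    push Not at hcon
    obtain ⟨x, hx⟩ := card_pos.1 (show 0 < #D by omega)
    set T : Finset (Fin 3) := univ.erase i with hT
    have hδ : ∀ s ∈ T, ∀ a b, kap' (ker f) i a b → ker f s a b → a = b := by
      intro s hs a b hab hs'
      exact hlin i s (mem_erase.1 hs).1.symm a b hab.1 hs'
    have hpres : ∀ g : A → A, (∀ s a b, ker f s a b → ker f s (g a) (g b)) →
        ∀ a b, kap' (ker f) i a b → kap' (ker f) i (g a) (g b) :=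
      fun g hg a b hab => pres_kap hg hab
    by_cases hall : ∀ a, (T.sup (ker f)) x a
    · obtain ⟨k, hk⟩ := exists_idem (circ hm w)
      have hid : ∀ c z, (circ hm w c)^[k + 1] z = z := by
        intro c
        by_contra hcon'
        push Not at hcon'
        obtain ⟨z, hz⟩ := hcon'
        have hp : ∀ s a b, ker f s a b →
            ker f s ((circ hm w c)^[k + 1] a) ((circ hm w c)^[k + 1] b) := fun s a b hab =>
          it_pres hm S s (k + 1) _ _ _ _ ((ker f s).refl c) hab
        have hS' := sys_retract S (fun a => (circ hm w c)^[k + 1] a) (hk c) hp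
        have hcard := Fintype.card_subtype_lt (p := fun a => (circ hm w c)^[k + 1] a = a) hz
        let E : A → {a : A // (circ hm w c)^[k + 1] a = a} := fun a =>
          ⟨(circ hm w c)^[k + 1] a, hk c a⟩
        have hinj : Set.InjOn E (D : Set A) := by
          intro a ha b hb hab
          have h2 : (circ hm w c)^[k + 1] a = (circ hm w c)^[k + 1] b :=
            congrArg Subtype.val hab
          have hab' := hD a ha b hb
          have h3 := tc (θ := ker f) (T := T) (δ := kap' (ker f) i) hδ
            (f := fun z => (circ hm w z)^[k + 1] a) (g := fun z => (circ hm w z)^[k + 1] b)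
            (fun s c d hcd => it_pres hm S s (k + 1) _ _ _ _ hcd ((ker f s).refl a))
            (fun s c d hcd => it_pres hm S s (k + 1) _ _ _ _ hcd ((ker f s).refl b))
            (fun z => hpres (fun t => (circ hm w z)^[k + 1] t)
              (fun s c d hcd => it_pres hm S s (k + 1) _ _ _ _ ((ker f s).refl z) hcd) a b hab')
            (Setoid.trans' _ (Setoid.symm' _ (hall c)) (hall a)) h2
          have h3' : (circ hm w a)^[k + 1] a = (circ hm w a)^[k + 1] b := h3
          rw [it_self hm S] at h3'
          exact it_inj hm S hδ hpres hab' hab'.2 (k + 1) h3'.symm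
        have h1 := ih _ (hN ▸ hcard) _ X _ _ hS' (lin_rs hlin _) (sp_rs hsp _) rfl i
          (D.image E) (by
            intro a ha b hb
            obtain ⟨a', ha', rfl⟩ := mem_image.1 ha
            obtain ⟨b', hb', rfl⟩ := mem_image.1 hb
            have hab := hD a' ha' b' hb'
            exact ⟨hp i _ _ hab.1, sup_pres (f := E) (fun s _ => hp s) hab.2⟩)
        rw [card_image_of_injOn hinj] at h1
        omega
      obtain ⟨p, hp, hcg⟩ := malcev hm S k hid
      have h1 := uc_small (nice_of_gumm hp hcg) he hsp x
      have h2 : D ⊆ uc f x := fun y hy => mem_uc.2 (kap_up (hD x hx y hy))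
      have h3 := card_le_card h2
      omega
    · push Not at hall
      obtain ⟨z, hz⟩ := hall
      obtain ⟨w', hS'⟩ := sys_class S T x
      have hcard := Fintype.card_subtype_lt (p := fun a => (T.sup (ker f)) x a) hz
      let E : {y // y ∈ D} → {a : A // (T.sup (ker f)) x a} := fun y =>
        ⟨y.1, (hD x hx y.1 y.2).2⟩
      have hinj : Function.Injective E := fun a b hab =>
        Subtype.ext (congrArg (fun t : {a : A // (T.sup (ker f)) x a} => t.1) hab)
      have h1 := ih _ (hN ▸ hcard) _ X _ _ hS' (lin_rs hlin _) (sp_rs hsp _) rfl i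
        (D.attach.image E) (by
          intro a ha b hb
          obtain ⟨a', -, rfl⟩ := mem_image.1 ha
          obtain ⟨b', -, rfl⟩ := mem_image.1 hb
          have hab := hD a'.1 a'.2 b'.1 b'.2
          exact ⟨hab.1, lift_class T T subset_rfl x hab.2⟩)
      rw [card_image_of_injective _ hinj, card_attach] at h1
      omega

theorem tri_bound {m : ℕ} (hm : 2 ≤ m) {e : ℕ} (he : 1 ≤ e) {A : Type} [Fintype A]
    {X : Fin 3 → Type} {f : ∀ i, A → X i} {w : (Fin m → A) → A} (S : SysG (ker f) w)
    (hlin : Lin f) (hsp : Sp f e) :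
    Fintype.card A ^ 2 ≤ (e - 1) * ∏ i, #((univ : Finset A).image (f i)) := by
  set ψ : Setoid A := psi' (ker f) 0 with hψ
  let Q : Type := Quotient ψ
  let mk : A → Q := fun a => Quotient.mk ψ a
  let cl : Q → Finset A := fun c => univ.filter fun a => mk a = c
  have hA : Fintype.card A = ∑ c, #(cl c) := by
    rw [← card_univ, card_eq_sum_card_fiberwise (f := mk) (t := univ) fun _ _ => mem_univ _]
  have h1 : ∀ c, #(cl c) ≤ (e - 1) * #((univ : Finset A).image (f 0)) := by
    intro c
    have h2 : #(cl c) ≤ (e - 1) * #((cl c).image (f 0)) := by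
      refine card_le_mul_card_image (cl c) (e - 1) fun v _ => ?_
      have h3 : #{x ∈ cl c | f 0 x = v} < e := by
        refine kap_small hm e he _ A X f w S hlin hsp rfl 0 _ ?_
        intro a ha b hb
        rw [mem_filter] at ha hb
        refine ⟨ha.2.trans hb.2.symm, ?_⟩
        have h4 : mk a = mk b := (mem_filter.1 ha.1).2.trans (mem_filter.1 hb.1).2.symm
        exact Quotient.exact h4
      omega
    exact h2.trans (Nat.mul_le_mul_left _ (card_le_card (image_subset_image (subset_univ _))))
  have h2 : ∀ c, #(cl c) ≤ #((cl c).image (f 1)) * #((cl c).image (f 2)) := by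
    intro c
    rw [← card_product, ← card_image_of_injOn (s := cl c) (f := fun a => (f 1 a, f 2 a))
      (fun a _ b _ hab => hlin 1 2 (by decide) a b (congrArg Prod.fst hab)
        (congrArg Prod.snd hab))]
    refine card_le_card fun z hz => ?_
    obtain ⟨a, ha, rfl⟩ := mem_image.1 hz
    exact mem_product.2 ⟨mem_image_of_mem _ ha, mem_image_of_mem _ ha⟩
  have h3 : ∀ j : Fin 3, j ≠ 0 → ∑ c, #((cl c).image (f j)) ≤ #((univ : Finset A).image (f j)) := by
    intro j hj
    rw [← card_biUnion]
    · refine card_le_card fun z hz => ?_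
      obtain ⟨c, -, hz⟩ := mem_biUnion.1 hz
      obtain ⟨a, -, rfl⟩ := mem_image.1 hz
      exact mem_image_of_mem _ (mem_univ _)
    · intro c _ d _ hcd
      rw [Function.onFun, disjoint_left]
      intro z hz hz'
      obtain ⟨a, ha, rfl⟩ := mem_image.1 hz
      obtain ⟨b, hb, hab⟩ := mem_image.1 hz'
      refine hcd ?_
      rw [← (mem_filter.1 ha).2, ← (mem_filter.1 hb).2]
      refine Quotient.sound ?_
      have h4 : ker f j ≤ ψ := Finset.le_sup (f := ker f) (mem_erase.2 ⟨hj, mem_univ _⟩)
      exact h4 hab.symm
  have h4 := Pool.Agent.R181.LW.holder (univ : Finset Q) (univ : Finset (Fin 2)) univ_nonempty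
    (fun c => (#(cl c) : ℝ))
    (fun i c => if i = 0 then (#((cl c).image (f 1)) : ℝ) else (#((cl c).image (f 2)) : ℝ))
    (((e - 1) * #((univ : Finset A).image (f 0)) : ℕ) : ℝ) (Nat.cast_nonneg _)
    (fun _ _ => Nat.cast_nonneg _)
    (fun i _ c _ => by split_ifs <;> exact Nat.cast_nonneg _)
    (fun c _ => by
      rw [card_univ, Fintype.card_fin, Fin.prod_univ_two]
      have h5 := Nat.mul_le_mul (h1 c) (h2 c)
      simp only [if_true, one_ne_zero, if_false]
      rw [pow_two]
      exact_mod_cast h5)
  rw [card_univ, Fintype.card_fin, Fin.prod_univ_two] at h4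
  simp only [if_true, one_ne_zero, if_false] at h4
  have h5 : Fintype.card A ^ 2 ≤ (e - 1) * #((univ : Finset A).image (f 0)) *
      ((∑ c, #((cl c).image (f 1))) * ∑ c, #((cl c).image (f 2))) := by
    rw [hA]
    exact_mod_cast h4
  rw [Fin.prod_univ_three]
  refine h5.trans ?_
  calc _ ≤ (e - 1) * #((univ : Finset A).image (f 0)) *
        (#((univ : Finset A).image (f 1)) * #((univ : Finset A).image (f 2))) :=
        Nat.mul_le_mul_left _ (Nat.mul_le_mul (h3 1 (by decide)) (h3 2 (by decide)))
    _ = _ := by ring

end Pool.Agent.H336.Tay
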